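import Pool.Agent.H70.WC.Null

/-!
Existence of an invariant circle with compact quotient, from the results on planes in hyperbolic
space (problem MP_90715c_gt).
-/

open Matrix Set Filter Topology

namespace Pool.Agent.H90.WC

variable {Γ : Subgroup G} {K : Set (OnePoint ℂ)}

/-- The action of the group on Minkowski space. -/
noncomputable def rhoG (Γ : Subgroup G) : Γ →* Module.End ℝ V := rho.comp Γ.subtype

lemma rhoG_apply (γ : Γ) (X : V) : rhoG Γ γ X = rho γ.1 X := rfl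

lemma act_rhoG (hcoc : ∃ C : Set G, IsCompact C ∧ ∀ g : G, ∃ γ ∈ Γ, γ * g ∈ C) :
    Act (rhoG Γ) where
  form γ u v := rho_form γ.1 u v
  pos γ X hX := rho_mem γ.1 hX
  coc := by
    obtain ⟨C, hC, hCc⟩ := hcoc
    obtain ⟨R, hR⟩ := hC.exists_bound_of_continuousOn continuous_pt.continuousOn
    refine ⟨R, fun X hX => ?_⟩
    obtain ⟨g, rfl⟩ := exists_pt hX
    obtain ⟨γ, hγ, hg⟩ := hCc g
    refine ⟨⟨γ, hγ⟩, ?_⟩
    rw [rhoG_apply, rho_pt]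
    exact hR _ hg

/-- The planes of an invariant set of frames. -/
def planes (S : Set G) : Set V := {v | ∃ q ∈ S, v = Yv q ∨ v = -Yv q}

lemma fam_planes {S : Set G} (hS : Inv Γ S)
    (hx : ∀ q ∈ S, ∀ q' ∈ S, 1 ≤ |Bf (q⁻¹ * q')|) : Fam (rhoG Γ) (planes S) where
  closed := by
    have h1 := closed_image hS.closed hS.right
    have h2 : planes S = Yv '' S ∪ (fun v : V => -v) ⁻¹' (Yv '' S) := by
      ext v
      constructor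
      · rintro ⟨q, hq, rfl | rfl⟩
        · exact Or.inl ⟨q, hq, rfl⟩
        · exact Or.inr ⟨q, hq, by simp⟩
      · rintro (⟨q, hq, h⟩ | ⟨q, hq, h⟩)
        · exact ⟨q, hq, Or.inl h.symm⟩
        · exact ⟨q, hq, Or.inr (by rw [h, neg_neg])⟩
    rw [h2]
    exact h1.union (h1.preimage continuous_neg)
  ne := by
    obtain ⟨q, hq⟩ := hS.ne
    exact ⟨Yv q, q, hq, Or.inl rfl⟩
  neg := by
    rintro v ⟨q, hq, rfl | rfl⟩
    · exact ⟨q, hq, Or.inr rfl⟩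
    · exact ⟨q, hq, Or.inl (neg_neg _)⟩
  inv := by
    rintro γ v ⟨q, hq, rfl | rfl⟩
    · exact ⟨γ.1 * q, hS.left γ.1 γ.2 q hq, Or.inl (by rw [rhoG_apply, rho_Yv])⟩
    · exact ⟨γ.1 * q, hS.left γ.1 γ.2 q hq, Or.inr (by rw [rhoG_apply, map_neg, rho_Yv])⟩
  unit := by
    rintro v ⟨q, hq, rfl | rfl⟩
    · exact D_Yv_self q
    · rw [D_neg_left, D_neg_right, neg_neg, D_Yv_self]
  nc := by
    rintro v ⟨q, hq, rfl | rfl⟩ v' ⟨q', hq', rfl | rfl⟩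
    · rw [D_Yv, abs_neg]; exact hx q hq q' hq'
    · rw [D_neg_right, D_Yv, abs_neg, abs_neg]; exact hx q hq q' hq'
    · rw [D_neg_left, D_Yv, abs_neg, abs_neg]; exact hx q hq q' hq'
    · rw [D_neg_left, D_neg_right, neg_neg, D_Yv, abs_neg]; exact hx q hq q' hq'

lemma min_null (mn : ∀ E : Set (Fin 2 → ℂ), IsClosed E → (∀ v ∈ E, ∀ c : ℂ, c • v ∈ E) →
      (∀ γ ∈ Γ, ∀ v ∈ E, γ.1 *ᵥ v ∈ E) → (∃ v ∈ E, v ≠ 0) → E = univ)
    (E : Set V) (hc : IsClosed E) (h0 : ∀ N ∈ E, D N N = 0 ∧ 0 ≤ N.1)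
    (hs : ∀ N ∈ E, ∀ c : ℝ, 0 ≤ c → c • N ∈ E) (hi : ∀ γ, ∀ N ∈ E, rhoG Γ γ N ∈ E)
    (hne : ∃ N ∈ E, N ≠ 0) (N : V) (hN : D N N = 0) (hN1 : 0 ≤ N.1) : N ∈ E := by
  have h : nl ⁻¹' E = univ := by
    refine mn _ (hc.preimage continuous_nl) ?_ ?_ ?_
    · intro v hv c
      rw [mem_preimage, nl_smul]
      exact hs _ hv _ (by positivity)
    · intro γ hγ v hv
      rw [mem_preimage, ← rho_nl]
      exact hi ⟨γ, hγ⟩ _ hv
    · obtain ⟨M, hM, hM0⟩ := hne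
      obtain ⟨v, rfl⟩ := exists_nl (h0 M hM).1 (h0 M hM).2
      refine ⟨v, hM, ?_⟩
      rintro rfl
      exact hM0 nl_zero
  obtain ⟨v, rfl⟩ := exists_nl hN hN1
  have : v ∈ nl ⁻¹' E := by rw [h]; trivial
  exact this

/-- Existence of an invariant circle with compact quotient, from the results on planes. -/
theorem exists_circle_of (hcoc : ∃ C : Set G, IsCompact C ∧ ∀ g : G, ∃ γ ∈ Γ, γ * g ∈ C)
    {S : Set G} (hS : Inv Γ S) (hx : ∀ q ∈ S, ∀ q' ∈ S, 1 ≤ |Bf (q⁻¹ * q')|)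
    (nf : ∀ {ρ : Γ →* Module.End ℝ V} {Q : Set V}, Act ρ → Fam ρ Q →
      (∀ E : Set V, IsClosed E → (∀ N ∈ E, D N N = 0 ∧ 0 ≤ N.1) →
        (∀ N ∈ E, ∀ c : ℝ, 0 ≤ c → c • N ∈ E) → (∀ γ, ∀ N ∈ E, ρ γ N ∈ E) →
        (∃ N ∈ E, N ≠ 0) → ∀ N, D N N = 0 → 0 ≤ N.1 → N ∈ E) →
      ∃ X ∈ H3, ∀ q ∈ Q, D q X ≠ 0)
    (cp : ∀ {ρ : Γ →* Module.End ℝ V} {Q : Set V}, Act ρ → Fam ρ Q →
      (∃ X ∈ H3, ∀ q ∈ Q, D q X ≠ 0) →
      (∀ γ, ∀ q ∈ Q, ∀ q' ∈ Q, q ≠ q' → D q q' = -1 → ρ γ q = q → ρ γ q' = q' → ρ γ = 1) →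
      ∃ q ∈ Q, ∃ R : ℝ, ∀ Y ∈ H3, D q Y = 0 → ∃ γ, ρ γ q = q ∧ ‖ρ γ Y‖ ≤ R)
    (np : ∀ γ ∈ Γ, (γ 0 0 + γ 1 1) ^ 2 = 4 → γ = 1 ∨ γ = -1)
    (mn : ∀ E : Set (Fin 2 → ℂ), IsClosed E → (∀ v ∈ E, ∀ c : ℂ, c • v ∈ E) →
      (∀ γ ∈ Γ, ∀ v ∈ E, γ.1 *ᵥ v ∈ E) → (∃ v ∈ E, v ≠ 0) → E = univ) :
    ∃ q ∈ S, ∃ C : Set G, IsCompact C ∧
      ∀ s : G, IsReal s → ∃ γ ∈ Γ, IsReal (q⁻¹ * γ * q) ∧ q⁻¹ * γ * q * s ∈ C := by
  have hA := act_rhoG hcoc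
  have hF := fam_planes hS hx
  have hgap := nf hA hF (min_null mn)
  obtain ⟨Y, ⟨q, hq, hY⟩, R, hR⟩ := cp hA hF hgap (by
    rintro γ Y ⟨q, hq, hY⟩ Y' hY' hne hD h h'
    have ht := par_trace hY (hF.unit _ hY') hne hD h h'
    have hr : rho γ.1 = 1 := by
      rcases np γ.1 γ.2 ht with h1 | h1
      · rw [h1, map_one]
      · rw [h1, rho_neg_one]
    exact hr)
  refine ⟨q, hq, (fun g : G => q⁻¹ * g) '' {g : G | (pt g).1 ≤ R},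
    (isCompact_pt R).image (continuous_const.mul continuous_id), ?_⟩
  intro s hs
  have hD : D (Yv q) (pt (q * s)) = 0 := by
    have e1 : Yv q = rho q (Yv 1) := by rw [rho_Yv, mul_one]
    rw [← rho_pt, e1, rho_form, D_Yv_one]
    unfold pt
    rw [isReal_iff] at hs
    obtain ⟨s0, s1, s2, s3⟩ := hs
    rw [ofM_21, Matrix.mul_apply, Fin.sum_univ_two, conjTranspose_apply, conjTranspose_apply]
    simp [s0, s1, s2, s3]
  have hD' : D Y (pt (q * s)) = 0 := by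
    rcases hY with rfl | rfl
    · exact hD
    · rw [D_neg_left, hD, neg_zero]
  obtain ⟨γ, hγ, hb⟩ := hR _ (pt_mem _) hD'
  have hfix : rho γ.1 (Yv q) = Yv q := by
    have : rho γ.1 Y = Y := hγ
    rcases hY with rfl | rfl
    · exact this
    · rw [map_neg] at this
      exact neg_injective this
  refine ⟨γ.1, γ.2, real_of_fix hfix, γ.1 * (q * s), ?_, ?_⟩
  · show (pt (γ.1 * (q * s))).1 ≤ R
    rw [← rho_pt]
    have h1 : |(rho γ.1 (pt (q * s))).1| ≤ ‖rho γ.1 (pt (q * s))‖ :=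
      norm_fst_le (rho γ.1 (pt (q * s)))
    exact (le_abs_self _).trans (h1.trans hb)
  · show q⁻¹ * (γ.1 * (q * s)) = q⁻¹ * γ.1 * q * s
    group

end Pool.Agent.H90.WC
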