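import Pool.Agent.H70.WC.Plane

/-!
The planes of an invariant set of frames form a closed set (problem MP_90715c_gt).
-/

open Matrix Set Filter Topology

namespace Pool.Agent.H90.WC

lemma continuous_toV {X : Type*} [TopologicalSpace X] {a b c d : X → ℝ} (ha : Continuous a)
    (hb : Continuous b) (hc : Continuous c) (hd : Continuous d) :
    Continuous fun x => ((a x, WithLp.toLp 2 ![b x, c x, d x]) : V) := by
  refine ha.prodMk ((PiLp.continuous_toLp 2 _).comp (continuous_pi fun i => ?_))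
  fin_cases i
  · exact hb
  · exact hc
  · exact hd

lemma continuous_ofM : Continuous fun M : M2 => ofM M := by
  have h : ∀ i j : Fin 2, Continuous fun M : M2 => M i j := fun i j =>
    continuous_id.matrix_elem i j
  have hr : ∀ i j : Fin 2, Continuous fun M : M2 => (M i j).re := fun i j =>
    Complex.continuous_re.comp (h i j)
  have hi : ∀ i j : Fin 2, Continuous fun M : M2 => (M i j).im := fun i j =>
    Complex.continuous_im.comp (h i j)
  exact continuous_toV (((hr 0 0).add (hr 1 1)).div_const 2) (hr 1 0) (hi 1 0)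
    (((hr 0 0).sub (hr 1 1)).div_const 2)

lemma continuous_pt : Continuous pt := by
  have h : Continuous fun g : G => g.1 := continuous_subtype_val
  exact continuous_ofM.comp (h.matrix_mul h.matrix_conjTranspose)

lemma continuous_Yv : Continuous Yv := by
  have h : Continuous fun g : G => g.1 := continuous_subtype_val
  exact continuous_ofM.comp (h.matrix_mul (continuous_const.matrix_mul h.matrix_conjTranspose))

lemma isCompact_entries (R : ℝ) : IsCompact {g : G | ∀ i j, ‖g i j‖ ≤ R} := by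
  have h1 : IsCompact (Set.pi univ fun _ : Fin 2 => Set.pi univ fun _ : Fin 2 =>
      Metric.closedBall (0 : ℂ) R) :=
    isCompact_univ_pi fun _ => isCompact_univ_pi fun _ => isCompact_closedBall _ _
  have h2 := (Matrix.SpecialLinearGroup.isClosedEmbedding_val (n := Fin 2)
      (R := ℂ)).isCompact_preimage h1
  refine h2.of_isClosed_subset ?_ ?_
  · have : {g : G | ∀ i j, ‖g i j‖ ≤ R} = ⋂ i, ⋂ j, {g : G | ‖g i j‖ ≤ R} := by
      ext g; simp
    rw [this]
    exact isClosed_iInter fun i => isClosed_iInter fun j =>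
      isClosed_le (continuous_entry i j).norm continuous_const
  · intro g hg i _ j _
    rw [mem_closedBall_zero_iff]
    exact hg i j

lemma isCompact_pt (r : ℝ) : IsCompact {g : G | (pt g).1 ≤ r} := by
  refine (isCompact_entries (2 * r + 1)).of_isClosed_subset
    (isClosed_le (continuous_fst.comp continuous_pt) continuous_const) ?_
  intro g hg
  have hg' : (pt g).1 ≤ r := hg
  rw [pt_1] at hg'
  have n0 := sq_nonneg ‖g 0 0‖
  have n1 := sq_nonneg ‖g 0 1‖
  have n2 := sq_nonneg ‖g 1 0‖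
  have n3 := sq_nonneg ‖g 1 1‖
  have key : ∀ x : ℝ, x ^ 2 ≤ 2 * r → x ≤ 2 * r + 1 := by
    intro x hx
    nlinarith [sq_nonneg (x - 1), sq_nonneg x]
  intro i j
  fin_cases i <;> fin_cases j
  · exact key _ (by show ‖g 0 0‖ ^ 2 ≤ 2 * r; linarith)
  · exact key _ (by show ‖g 0 1‖ ^ 2 ≤ 2 * r; linarith)
  · exact key _ (by show ‖g 1 0‖ ^ 2 ≤ 2 * r; linarith)
  · exact key _ (by show ‖g 1 1‖ ^ 2 ≤ 2 * r; linarith)

/-- The frame of a plane can be chosen bounded. -/
lemma exists_bdd (q : G) : ∃ (α β : ℝ) (hα : α ≠ 0),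
    (pt (q * bR α β hα)).1 = √(1 + (Yv q).1 ^ 2) := by
  obtain ⟨n11, hn11⟩ : ∃ x, x = (q 0 0).re ^ 2 + (q 0 0).im ^ 2 + (q 1 0).re ^ 2 +
    (q 1 0).im ^ 2 := ⟨_, rfl⟩
  obtain ⟨n12, hn12⟩ : ∃ x, x = (q 0 0).re * (q 0 1).re + (q 0 0).im * (q 0 1).im +
    (q 1 0).re * (q 1 1).re + (q 1 0).im * (q 1 1).im := ⟨_, rfl⟩
  obtain ⟨n22, hn22⟩ : ∃ x, x = (q 0 1).re ^ 2 + (q 0 1).im ^ 2 + (q 1 1).re ^ 2 +
    (q 1 1).im ^ 2 := ⟨_, rfl⟩
  have hy : (Yv q).1 = -((q 0 0).re * (q 0 1).im - (q 0 0).im * (q 0 1).re +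
      (q 1 0).re * (q 1 1).im - (q 1 0).im * (q 1 1).re) := by
    rw [Yv_1]
    simp
    ring
  have hdr := congrArg Complex.re (det_eq q)
  have hdi := congrArg Complex.im (det_eq q)
  simp only [Complex.sub_re, Complex.sub_im, Complex.mul_re, Complex.mul_im, Complex.one_re,
    Complex.one_im] at hdr hdi
  obtain ⟨d, hd⟩ : ∃ d, d = 1 + (Yv q).1 ^ 2 := ⟨_, rfl⟩
  have hdet : n11 * n22 - n12 ^ 2 = d := by
    rw [hd, hy, hn11, hn12, hn22]
    have e : ((q 0 0).re * (q 1 1).re - (q 0 0).im * (q 1 1).im -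
      ((q 0 1).re * (q 1 0).re - (q 0 1).im * (q 1 0).im)) ^ 2 +
      ((q 0 0).re * (q 1 1).im + (q 0 0).im * (q 1 1).re -
      ((q 0 1).re * (q 1 0).im + (q 0 1).im * (q 1 0).re)) ^ 2 = 1 := by
      rw [hdr, hdi]; norm_num
    linear_combination e
  have hd1 : 1 ≤ d := by rw [hd]; nlinarith [sq_nonneg (Yv q).1]
  have hn0 : 0 ≤ n11 := by rw [hn11]; positivity
  have hn22' : 0 ≤ n22 := by rw [hn22]; positivity
  have hn : 0 < n11 := by
    rcases hn0.lt_or_eq with h | h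
    · exact h
    · rw [← h] at hdet
      nlinarith [sq_nonneg n12]
  obtain ⟨s, hs0, hs⟩ : ∃ s : ℝ, 0 < s ∧ s ^ 2 = d :=
    ⟨√d, Real.sqrt_pos.2 (by linarith), Real.sq_sqrt (by linarith)⟩
  have hsd : √(1 + (Yv q).1 ^ 2) = s := by rw [← hd, ← hs, Real.sqrt_sq hs0.le]
  obtain ⟨α, hα0, hα⟩ : ∃ α : ℝ, 0 < α ∧ α ^ 2 = s / n11 :=
    ⟨√(s / n11), Real.sqrt_pos.2 (by positivity), Real.sq_sqrt (by positivity)⟩
  refine ⟨α, -α * n12 / s, hα0.ne', ?_⟩
  rw [hsd, pt_1, Complex.sq_norm, Complex.sq_norm, Complex.sq_norm, Complex.sq_norm,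
    Complex.normSq_apply, Complex.normSq_apply, Complex.normSq_apply, Complex.normSq_apply,
    mul_00, mul_01, mul_10, mul_11, bR_00, bR_01, bR_10, bR_11, ← Complex.ofReal_inv]
  simp only [Complex.add_re, Complex.add_im, Complex.mul_re, Complex.mul_im, Complex.ofReal_re,
    Complex.ofReal_im, Complex.zero_re, Complex.zero_im]
  have hαi : α⁻¹ ^ 2 = n11 / s := by
    rw [inv_pow, hα, inv_div]
  have hab : α * α⁻¹ = 1 := mul_inv_cancel₀ hα0.ne'
  obtain ⟨β, hβ⟩ : ∃ β, β = -α * n12 / s := ⟨_, rfl⟩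
  rw [← hβ]
  have hβ2 : β ^ 2 = n12 ^ 2 / (s * n11) := by
    rw [hβ, div_pow, mul_pow, neg_sq, hα]
    field_simp
  have hβα : β * α⁻¹ = -n12 / s := by
    rw [hβ, div_mul_eq_mul_div]
    congr 1
    linear_combination (-n12) * hab
  have e : α ^ 2 * n11 + β ^ 2 * n11 + 2 * (β * α⁻¹) * n12 + α⁻¹ ^ 2 * n22 = 2 * s := by
    rw [hα, hβ2, hβα, hαi]
    field_simp
    rw [hs]
    linear_combination hdet
  rw [hn11, hn12, hn22] at e
  linear_combination (1 / 2) * e

/-- The planes of an invariant set of frames form a closed set. -/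
lemma closed_image {S : Set G} (hc : IsClosed S)
    (hr : ∀ q ∈ S, ∀ (α β : ℝ) (hα : α ≠ 0), q * bR α β hα ∈ S) : IsClosed (Yv '' S) := by
  refine isClosed_of_closure_subset fun v hv => ?_
  obtain ⟨r, hr'⟩ : ∃ r, r = |v.1| + 1 := ⟨_, rfl⟩
  have hU : IsOpen {w : V | |w.1| < r} := isOpen_lt (continuous_fst.abs) continuous_const
  have hK : IsCompact (Yv '' (S ∩ {g : G | (pt g).1 ≤ √(1 + r ^ 2)})) :=
    ((isCompact_pt _).inter_left hc).image continuous_Yv
  have hsub : Yv '' S ∩ {w : V | |w.1| < r} ⊆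
      Yv '' (S ∩ {g : G | (pt g).1 ≤ √(1 + r ^ 2)}) := by
    rintro w ⟨⟨q, hq, rfl⟩, hw⟩
    have hw' : |(Yv q).1| < r := hw
    obtain ⟨α, β, hα, hb⟩ := exists_bdd q
    refine ⟨q * bR α β hα, ⟨hr q hq α β hα, ?_⟩, Yv_mul_real q (isReal_bR α β hα)⟩
    show (pt (q * bR α β hα)).1 ≤ √(1 + r ^ 2)
    rw [hb]
    apply Real.sqrt_le_sqrt
    have := sq_le_sq' (by linarith [abs_nonneg (Yv q).1] : -r ≤ |(Yv q).1|) hw'.le
    rw [sq_abs] at this
    linarith
  have hv2 : v ∈ closure (Yv '' S ∩ {w : V | |w.1| < r}) := by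
    have : v ∈ {w : V | |w.1| < r} := by
      show |v.1| < r
      linarith
    rw [inter_comm]
    exact hU.inter_closure ⟨this, hv⟩
  have := closure_minimal hsub hK.isClosed hv2
  obtain ⟨q, hq, e⟩ := this
  exact ⟨q, hq.1, e⟩

end Pool.Agent.H90.WC
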