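import Pool.Agent.H90.WC.Inv
import Pool.Agent.H90.WC.Mink

/-!
Minkowski space as the space of hermitian matrices, and the action of `SL(2, ℂ)` on it
(problem MP_90715c_gt).
-/

open Matrix Set Filter Topology

namespace Pool.Agent.H90.WC

/-- Complex two by two matrices. -/
abbrev M2 := Matrix (Fin 2) (Fin 2) ℂ

lemma D_eq (u v : V) :
    D u v = u.1 * v.1 - (u.2 0 * v.2 0 + u.2 1 * v.2 1 + u.2 2 * v.2 2) := by
  unfold D
  rw [PiLp.inner_apply, Fin.sum_univ_three]
  simp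
  ring

lemma V_ext {u v : V} (h : u.1 = v.1) (h0 : u.2 0 = v.2 0) (h1 : u.2 1 = v.2 1)
    (h2 : u.2 2 = v.2 2) : u = v := by
  refine Prod.ext h ?_
  ext i
  fin_cases i <;> assumption

lemma M_ext {M N : M2} (h00 : M 0 0 = N 0 0) (h01 : M 0 1 = N 0 1) (h10 : M 1 0 = N 1 0)
    (h11 : M 1 1 = N 1 1) : M = N := by
  ext i j
  fin_cases i <;> fin_cases j <;> assumption

/-- The hermitian matrix of a vector. -/
noncomputable def toM : V →ₗ[ℝ] M2 where
  toFun X := !![((X.1 + X.2 2 : ℝ) : ℂ), ⟨X.2 0, -X.2 1⟩; ⟨X.2 0, X.2 1⟩, ((X.1 - X.2 2 : ℝ) : ℂ)]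
  map_add' X Y := by
    apply M_ext <;> apply Complex.ext <;> simp <;> ring
  map_smul' c X := by
    apply M_ext <;> apply Complex.ext <;> simp <;> ring

lemma toM_00 (X : V) : toM X 0 0 = ((X.1 + X.2 2 : ℝ) : ℂ) := rfl
lemma toM_01 (X : V) : toM X 0 1 = ⟨X.2 0, -X.2 1⟩ := rfl
lemma toM_10 (X : V) : toM X 1 0 = ⟨X.2 0, X.2 1⟩ := rfl
lemma toM_11 (X : V) : toM X 1 1 = ((X.1 - X.2 2 : ℝ) : ℂ) := rfl

/-- The vector of a matrix. -/
noncomputable def ofM : M2 →ₗ[ℝ] V where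
  toFun M := (((M 0 0).re + (M 1 1).re) / 2,
    WithLp.toLp 2 ![(M 1 0).re, (M 1 0).im, ((M 0 0).re - (M 1 1).re) / 2])
  map_add' M N := by
    apply V_ext <;> simp <;> ring
  map_smul' c M := by
    apply V_ext <;> simp <;> ring

lemma ofM_1 (M : M2) : (ofM M).1 = ((M 0 0).re + (M 1 1).re) / 2 := rfl
lemma ofM_20 (M : M2) : (ofM M).2 0 = (M 1 0).re := rfl
lemma ofM_21 (M : M2) : (ofM M).2 1 = (M 1 0).im := rfl
lemma ofM_22 (M : M2) : (ofM M).2 2 = ((M 0 0).re - (M 1 1).re) / 2 := rfl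

lemma ofM_toM (X : V) : ofM (toM X) = X := by
  apply V_ext
  · rw [ofM_1, toM_00, toM_11, Complex.ofReal_re, Complex.ofReal_re]; ring
  · rw [ofM_20, toM_10]
  · rw [ofM_21, toM_10]
  · rw [ofM_22, toM_00, toM_11, Complex.ofReal_re, Complex.ofReal_re]; ring

lemma herm_iff {M : M2} : Mᴴ = M ↔
    (M 0 0).im = 0 ∧ (M 1 1).im = 0 ∧ (M 0 1).re = (M 1 0).re ∧ (M 0 1).im = -(M 1 0).im := by
  constructor
  · intro h
    have h00 := congrFun (congrFun h 0) 0
    have h11 := congrFun (congrFun h 1) 1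
    have h01 := congrFun (congrFun h 0) 1
    rw [conjTranspose_apply] at h00 h11 h01
    have i00 := congrArg Complex.im h00
    have i11 := congrArg Complex.im h11
    have i01 := congrArg Complex.im h01
    have r01 := congrArg Complex.re h01
    simp at i00 i11 i01 r01
    refine ⟨by linarith, by linarith, by linarith, by linarith⟩
  · rintro ⟨h0, h1, h2, h3⟩
    apply M_ext <;> rw [conjTranspose_apply] <;> apply Complex.ext <;> simp <;> linarith

lemma toM_herm (X : V) : (toM X)ᴴ = toM X := by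
  rw [herm_iff]
  refine ⟨?_, ?_, ?_, ?_⟩
  · rw [toM_00, Complex.ofReal_im]
  · rw [toM_11, Complex.ofReal_im]
  · rw [toM_01, toM_10]
  · rw [toM_01, toM_10]

lemma toM_ofM {M : M2} (hM : Mᴴ = M) : toM (ofM M) = M := by
  obtain ⟨h0, h1, h2, h3⟩ := herm_iff.1 hM
  apply M_ext
  · rw [toM_00, ofM_1, ofM_22]
    apply Complex.ext
    · rw [Complex.ofReal_re]; ring
    · rw [Complex.ofReal_im, h0]
  · rw [toM_01, ofM_20, ofM_21]
    exact Complex.ext h2.symm h3.symm
  · rw [toM_10, ofM_20, ofM_21]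
  · rw [toM_11, ofM_1, ofM_22]
    apply Complex.ext
    · rw [Complex.ofReal_re]; ring
    · rw [Complex.ofReal_im, h1]

lemma det_toM (X : V) : (toM X).det = ((D X X : ℝ) : ℂ) := by
  rw [det_fin_two, toM_00, toM_01, toM_10, toM_11, D_eq]
  apply Complex.ext
  · simp; ring
  · simp; ring

lemma D_symm (u v : V) : D u v = D v u := by rw [D_eq, D_eq]; ring

lemma D_neg_left (u v : V) : D (-u) v = -D u v := by
  rw [D_eq, D_eq]; simp; ring

lemma D_neg_right (u v : V) : D u (-v) = -D u v := by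
  rw [D_symm, D_neg_left, D_symm]

lemma D_sub_left (u v w : V) : D (u - v) w = D u w - D v w := by
  rw [D_eq, D_eq, D_eq]; simp; ring

lemma D_sub_right (u v w : V) : D w (u - v) = D w u - D w v := by
  rw [D_symm, D_sub_left, D_symm u, D_symm v]

lemma D_polar (u v : V) : D u v = (D (u + v) (u + v) - D u u - D v v) / 2 := by
  simp only [D_eq]; simp; ring

lemma val_mul (g h : G) : (g * h).1 = g.1 * h.1 := rfl

lemma val_one : (1 : G).1 = 1 := rfl

/-- The conjugation of a matrix by an element of the group. -/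
lemma herm_conj (g : G) {M : M2} (hM : Mᴴ = M) : (g.1 * (M * g.1ᴴ))ᴴ = g.1 * (M * g.1ᴴ) := by
  rw [conjTranspose_mul, conjTranspose_mul, conjTranspose_conjTranspose, hM, Matrix.mul_assoc]

/-- The action of `SL(2, ℂ)` on Minkowski space. -/
noncomputable def rho : G →* Module.End ℝ V where
  toFun g := ofM ∘ₗ LinearMap.mulLeft ℝ g.1 ∘ₗ LinearMap.mulRight ℝ (g.1ᴴ) ∘ₗ toM
  map_one' := by
    apply LinearMap.ext
    intro X
    simp only [LinearMap.comp_apply, LinearMap.mulLeft_apply, LinearMap.mulRight_apply,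
      Module.End.one_apply]
    rw [val_one, conjTranspose_one, Matrix.mul_one, Matrix.one_mul, ofM_toM]
  map_mul' g h := by
    apply LinearMap.ext
    intro X
    simp only [LinearMap.comp_apply, LinearMap.mulLeft_apply, LinearMap.mulRight_apply,
      Module.End.mul_apply]
    rw [toM_ofM (herm_conj h (toM_herm X)), val_mul, conjTranspose_mul]
    simp only [Matrix.mul_assoc]

lemma rho_apply (g : G) (X : V) : rho g X = ofM (g.1 * (toM X * g.1ᴴ)) := rfl

lemma rho_ofM (g : G) {M : M2} (hM : Mᴴ = M) : rho g (ofM M) = ofM (g.1 * (M * g.1ᴴ)) := by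
  rw [rho_apply, toM_ofM hM]

lemma toM_rho (g : G) (X : V) : toM (rho g X) = g.1 * (toM X * g.1ᴴ) := by
  rw [rho_apply, toM_ofM (herm_conj g (toM_herm X))]

lemma rho_form_self (g : G) (X : V) : D (rho g X) (rho g X) = D X X := by
  have h1 := det_toM (rho g X)
  rw [toM_rho, det_mul, det_mul, det_conjTranspose, g.2, det_toM, star_one, one_mul, mul_one] at h1
  exact (Complex.ofReal_injective h1).symm

lemma rho_form (g : G) (u v : V) : D (rho g u) (rho g v) = D u v := by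
  rw [D_polar (rho g u), ← map_add, rho_form_self, rho_form_self, rho_form_self, ← D_polar]

lemma rho_neg_one : rho (-1) = 1 := by
  apply LinearMap.ext
  intro X
  rw [rho_apply]
  simp [ofM_toM]

/-- The point of hyperbolic space of a frame. -/
noncomputable def pt (g : G) : V := ofM (g.1 * g.1ᴴ)

lemma rho_pt (g h : G) : rho g (pt h) = pt (g * h) := by
  unfold pt
  rw [rho_ofM g (by rw [conjTranspose_mul, conjTranspose_conjTranspose]),
    val_mul, conjTranspose_mul]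
  simp only [Matrix.mul_assoc]

lemma mul_star_00 (g : G) : (g.1 * g.1ᴴ) 0 0 =
    ((‖g 0 0‖ ^ 2 + ‖g 0 1‖ ^ 2 : ℝ) : ℂ) := by
  rw [Matrix.mul_apply, Fin.sum_univ_two, conjTranspose_apply, conjTranspose_apply]
  push_cast
  rw [← Complex.mul_conj', ← Complex.mul_conj']
  rfl

lemma mul_star_11 (g : G) : (g.1 * g.1ᴴ) 1 1 =
    ((‖g 1 0‖ ^ 2 + ‖g 1 1‖ ^ 2 : ℝ) : ℂ) := by
  rw [Matrix.mul_apply, Fin.sum_univ_two, conjTranspose_apply, conjTranspose_apply]
  push_cast
  rw [← Complex.mul_conj', ← Complex.mul_conj']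
  rfl

lemma pt_1 (g : G) : (pt g).1 = (‖g 0 0‖ ^ 2 + ‖g 0 1‖ ^ 2 + ‖g 1 0‖ ^ 2 + ‖g 1 1‖ ^ 2) / 2 := by
  unfold pt
  rw [ofM_1, mul_star_00, mul_star_11, Complex.ofReal_re, Complex.ofReal_re]
  ring

lemma pt_mem (g : G) : pt g ∈ H3 := by
  constructor
  · have h : pt g = rho g (ofM 1) := by
      rw [rho_ofM g (by simp), Matrix.one_mul]; rfl
    rw [h, rho_form_self, D_eq]
    simp [ofM_1, ofM_20, ofM_21, ofM_22]
  · rw [pt_1]
    have h0 : g 0 0 ≠ 0 ∨ g 0 1 ≠ 0 := by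
      by_contra hcon
      push Not at hcon
      have := det_eq g
      rw [hcon.1, hcon.2] at this
      simp at this
    have n0 := sq_nonneg ‖g 0 0‖
    have n1 := sq_nonneg ‖g 0 1‖
    have n2 := sq_nonneg ‖g 1 0‖
    have n3 := sq_nonneg ‖g 1 1‖
    rcases h0 with h0 | h0
    · have : 0 < ‖g 0 0‖ ^ 2 := by positivity
      linarith
    · have : 0 < ‖g 0 1‖ ^ 2 := by positivity
      linarith

/-- Every point of hyperbolic space is the point of a frame. -/
lemma exists_pt {X : V} (hX : X ∈ H3) : ∃ g : G, pt g = X := by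
  obtain ⟨h1, h2⟩ := hX
  rw [D_eq] at h1
  have hac : (X.1 + X.2 2) * (X.1 - X.2 2) = 1 + (X.2 0 * X.2 0 + X.2 1 * X.2 1) := by linarith
  have hpos : 0 < (X.1 + X.2 2) * (X.1 - X.2 2) := by
    rw [hac]
    nlinarith [mul_self_nonneg (X.2 0), mul_self_nonneg (X.2 1)]
  have ha : 0 < X.1 + X.2 2 := by
    rcases pos_and_pos_or_neg_and_neg_of_mul_pos hpos with h | h
    · exact h.1
    · linarith [h.1, h.2]
  obtain ⟨r, hr, hr2⟩ : ∃ r : ℝ, 0 < r ∧ r ^ 2 = X.1 + X.2 2 :=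
    ⟨√(X.1 + X.2 2), Real.sqrt_pos.2 ha, Real.sq_sqrt ha.le⟩
  have hrc : (r : ℂ) ≠ 0 := by exact_mod_cast hr.ne'
  refine ⟨⟨!![(r : ℂ), 0; ⟨X.2 0, X.2 1⟩ / r, (r : ℂ)⁻¹], by
    rw [det_fin_two_of]; simp [hrc]⟩, ?_⟩
  refine Eq.trans (congrArg ofM ?_) (ofM_toM X)
  apply M_ext
  · rw [Matrix.mul_apply, Fin.sum_univ_two, conjTranspose_apply, conjTranspose_apply, toM_00,
      ← hr2]
    simp
    ring
  · rw [Matrix.mul_apply, Fin.sum_univ_two, conjTranspose_apply, conjTranspose_apply, toM_01]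
    simp
    rw [mul_div_cancel₀ _ hrc]
    rfl
  · rw [Matrix.mul_apply, Fin.sum_univ_two, conjTranspose_apply, conjTranspose_apply, toM_10]
    simp
    rw [div_mul_cancel₀ _ hrc]
  · rw [Matrix.mul_apply, Fin.sum_univ_two, conjTranspose_apply, conjTranspose_apply, toM_11]
    simp
    have hc : (X.1 - X.2 2 : ℝ) = (1 + (X.2 0 * X.2 0 + X.2 1 * X.2 1)) / r ^ 2 := by
      rw [eq_div_iff (by positivity), hr2]
      linarith
    have hc' := congrArg (fun x : ℝ => (x : ℂ)) hc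
    simp only [Complex.ofReal_sub] at hc'
    rw [hc']
    push_cast
    have e : (⟨X.2 0, X.2 1⟩ : ℂ) * (starRingEnd ℂ) ⟨X.2 0, X.2 1⟩ =
        (X.2 0 : ℂ) * X.2 0 + (X.2 1 : ℂ) * X.2 1 := by
      apply Complex.ext <;> simp; ring
    rw [div_mul_div_comm, e]
    field_simp
    ring

lemma rho_mem (g : G) {X : V} (hX : X ∈ H3) : rho g X ∈ H3 := by
  obtain ⟨h, rfl⟩ := exists_pt hX
  rw [rho_pt]
  exact pt_mem _

end Pool.Agent.H90.WC
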