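import Pool.Agent.H70.WC.Closed

/-!
Null vectors and elements which fix two tangent planes (problem MP_90715c_gt).
-/

open Matrix Set Filter Topology

namespace Pool.Agent.H90.WC

/-- The null vector of a vector of `ℂ ^ 2`. -/
noncomputable def nl (v : Fin 2 → ℂ) : V := ofM (vecMulVec v (star v))

lemma vmv_herm (v : Fin 2 → ℂ) : (vecMulVec v (star v))ᴴ = vecMulVec v (star v) := by
  apply M_ext <;> rw [conjTranspose_apply] <;> simp [vecMulVec_apply] <;> ring

lemma rho_nl (g : G) (v : Fin 2 → ℂ) : rho g (nl v) = nl (g.1 *ᵥ v) := by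
  unfold nl
  rw [rho_ofM g (vmv_herm v), vecMulVec_mul, mul_vecMulVec, star_mulVec]

lemma nl_smul (c : ℂ) (v : Fin 2 → ℂ) : nl (c • v) = (‖c‖ ^ 2 : ℝ) • nl v := by
  unfold nl
  rw [← map_smul]
  congr 1
  have h : (c * (starRingEnd ℂ) c) = ((‖c‖ ^ 2 : ℝ) : ℂ) := by
    push_cast
    rw [← Complex.mul_conj']
  have key : ∀ i j, vecMulVec (c • v) (star (c • v)) i j =
      ((‖c‖ ^ 2 : ℝ) • vecMulVec v (star v)) i j := by
    intro i j
    rw [Matrix.smul_apply, vecMulVec_apply, vecMulVec_apply, Complex.real_smul, ← h]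
    simp
    ring
  exact M_ext (key 0 0) (key 0 1) (key 1 0) (key 1 1)

lemma nl_zero : nl 0 = 0 := by
  have := nl_smul 0 0
  simpa using this

lemma continuous_nl : Continuous nl :=
  continuous_ofM.comp (continuous_id.matrix_vecMulVec continuous_star)

lemma exists_nl {N : V} (h : D N N = 0) (h0 : 0 ≤ N.1) : ∃ v, nl v = N := by
  rw [D_eq] at h
  have hac : (N.1 + N.2 2) * (N.1 - N.2 2) = N.2 0 * N.2 0 + N.2 1 * N.2 1 := by linarith
  have hn0 := mul_self_nonneg (N.2 0)
  have hn1 := mul_self_nonneg (N.2 1)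
  have ha : 0 ≤ N.1 + N.2 2 := by
    by_contra hcon
    push Not at hcon
    have : 0 < N.1 - N.2 2 := by linarith
    nlinarith
  have hc : 0 ≤ N.1 - N.2 2 := by
    by_contra hcon
    push Not at hcon
    have : 0 < N.1 + N.2 2 := by linarith
    nlinarith
  rcases ha.lt_or_eq with ha | ha
  · obtain ⟨r, hr, hr2⟩ : ∃ r : ℝ, 0 < r ∧ r ^ 2 = N.1 + N.2 2 :=
      ⟨√(N.1 + N.2 2), Real.sqrt_pos.2 ha, Real.sq_sqrt ha.le⟩
    have hrc : (r : ℂ) ≠ 0 := by exact_mod_cast hr.ne'
    refine ⟨![(r : ℂ), ⟨N.2 0, N.2 1⟩ / r], ?_⟩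
    refine Eq.trans (congrArg ofM ?_) (ofM_toM N)
    apply M_ext
    · rw [vecMulVec_apply, toM_00, ← hr2]
      simp
      ring
    · rw [vecMulVec_apply, toM_01]
      simp
      rw [mul_div_cancel₀ _ hrc]
      rfl
    · rw [vecMulVec_apply, toM_10]
      simp
      rw [div_mul_cancel₀ _ hrc]
    · rw [vecMulVec_apply, toM_11]
      simp
      have hc : (N.1 - N.2 2 : ℝ) = (N.2 0 * N.2 0 + N.2 1 * N.2 1) / r ^ 2 := by
        rw [eq_div_iff (by positivity), hr2]
        linarith
      have hc' := congrArg (fun x : ℝ => (x : ℂ)) hc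
      simp only [Complex.ofReal_sub] at hc'
      rw [hc']
      push_cast
      have e : (⟨N.2 0, N.2 1⟩ : ℂ) * (starRingEnd ℂ) ⟨N.2 0, N.2 1⟩ =
          (N.2 0 : ℂ) * N.2 0 + (N.2 1 : ℂ) * N.2 1 := by
        apply Complex.ext <;> simp; ring
      rw [div_mul_div_comm, e]
      ring
  · rw [← ha, zero_mul] at hac
    have z0 : N.2 0 = 0 := by
      apply mul_self_eq_zero.1
      linarith
    have z1 : N.2 1 = 0 := by
      apply mul_self_eq_zero.1
      linarith
    obtain ⟨r, hr, hr2⟩ : ∃ r : ℝ, 0 ≤ r ∧ r ^ 2 = N.1 - N.2 2 :=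
      ⟨√(N.1 - N.2 2), Real.sqrt_nonneg _, Real.sq_sqrt hc⟩
    refine ⟨![0, (r : ℂ)], ?_⟩
    refine Eq.trans (congrArg ofM ?_) (ofM_toM N)
    apply M_ext
    · rw [vecMulVec_apply, toM_00, ← ha]
      simp
    · rw [vecMulVec_apply, toM_01, z0, z1]
      apply Complex.ext <;> simp
    · rw [vecMulVec_apply, toM_10, z0, z1]
      apply Complex.ext <;> simp
    · rw [vecMulVec_apply, toM_11, ← hr2]
      simp
      ring

lemma real_trace {p q r s a b c : ℝ} (hd : p * s - q * r = 1) (hac : a * c = b ^ 2)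
    (hne : ¬ (a = 0 ∧ b = 0 ∧ c = 0))
    (e0 : p ^ 2 * a + 2 * (p * q) * b + q ^ 2 * c = a)
    (e1 : p * r * a + (p * s + q * r) * b + q * s * c = b)
    (e2 : r ^ 2 * a + 2 * (r * s) * b + s ^ 2 * c = c) : (p + s) ^ 2 = 4 := by
  by_cases ha : a = 0
  · subst ha
    have hb : b = 0 := by
      have : b ^ 2 = 0 := by linarith
      exact pow_eq_zero_iff (two_ne_zero) |>.1 this
    subst hb
    have hc : c ≠ 0 := fun h => hne ⟨rfl, rfl, h⟩
    have hq : q = 0 := by
      have : q ^ 2 * c = 0 := by linarith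
      rcases mul_eq_zero.1 this with h | h
      · exact pow_eq_zero_iff (two_ne_zero) |>.1 h
      · exact absurd h hc
    subst hq
    have hs : s ^ 2 = 1 := by
      have : (s ^ 2 - 1) * c = 0 := by linarith
      rcases mul_eq_zero.1 this with h | h
      · linarith
      · exact absurd h hc
    have hps : p * s = 1 := by linarith
    have hp : p = s := by
      calc p = p * s ^ 2 := by rw [hs, mul_one]
        _ = p * s * s := by ring
        _ = s := by rw [hps, one_mul]
    rw [hp]
    linarith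
  · have h1 : (p * a + q * b) ^ 2 = a ^ 2 := by
      linear_combination a * e0 - q ^ 2 * hac
    have h2 : (p * a + q * b) * (r * a + s * b) = a * b := by
      linear_combination a * e1 - q * s * hac
    rcases sq_eq_sq_iff_eq_or_eq_neg.1 h1 with h | h
    · have h3 : r * a + s * b = b := by
        rw [h] at h2
        exact mul_left_cancel₀ ha h2
      have h4 : ((p - 1) * (s - 1) - q * r) * a = 0 := by
        linear_combination (s - 1) * h - q * h3
      have h5 : (p - 1) * (s - 1) - q * r = 0 := by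
        rcases mul_eq_zero.1 h4 with h | h
        · exact h
        · exact absurd h ha
      have h6 : p + s = 2 := by linear_combination hd - h5
      rw [h6]; norm_num
    · have h3 : r * a + s * b = -b := by
        rw [h] at h2
        apply mul_left_cancel₀ (neg_ne_zero.2 ha)
        rw [h2]; ring
      have h4 : ((p + 1) * (s + 1) - q * r) * a = 0 := by
        linear_combination (s + 1) * h - q * h3
      have h5 : (p + 1) * (s + 1) - q * r = 0 := by
        rcases mul_eq_zero.1 h4 with h | h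
        · exact h
        · exact absurd h ha
      have h6 : p + s = -2 := by linear_combination h5 - hd
      rw [h6]; norm_num

lemma fix_trace {t : G} (ht : IsReal t) {N : V} (hN : N ≠ 0) (h0 : D N N = 0) (h1 : N.2 1 = 0)
    (hf : rho t N = N) : (t 0 0 + t 1 1) ^ 2 = 4 := by
  have hd := ht.det
  rw [isReal_iff] at ht
  obtain ⟨t0, t1, t2, t3⟩ := ht
  have e := congrArg toM hf
  rw [toM_rho] at e
  have e00 := congrArg Complex.re (congrFun (congrFun e 0) 0)
  have e10 := congrArg Complex.re (congrFun (congrFun e 1) 0)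
  have e11 := congrArg Complex.re (congrFun (congrFun e 1) 1)
  simp only [Matrix.mul_apply, Fin.sum_univ_two, conjTranspose_apply, toM_00, toM_01, toM_10,
    toM_11, h1] at e00 e10 e11
  simp [t0, t1, t2, t3] at e00 e10 e11
  rw [D_eq, h1] at h0
  have hr := real_trace (a := N.1 + N.2 2) (b := N.2 0) (c := N.1 - N.2 2) hd (by linarith)
    (by
      rintro ⟨c1, c2, c3⟩
      apply hN
      apply V_ext
      · show N.1 = 0
        linarith
      · show N.2 0 = 0
        exact c2
      · show N.2 1 = 0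
        exact h1
      · show N.2 2 = 0
        linarith)
    (by linarith) (by linarith) (by linarith)
  apply Complex.ext
  · rw [pow_two, Complex.mul_re, Complex.add_re, Complex.add_im, t0, t3]
    simp
    linarith
  · rw [pow_two, Complex.mul_im, Complex.add_re, Complex.add_im, t0, t3]
    simp

lemma conj_trace (q γ : G) :
    (q⁻¹ * γ * q) 0 0 + (q⁻¹ * γ * q) 1 1 = γ 0 0 + γ 1 1 := by
  rw [mul_00, mul_11, mul_00, mul_01, mul_10, mul_11, inv_00, inv_01, inv_10, inv_11]
  linear_combination (γ 0 0 + γ 1 1) * det_eq q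

lemma rho_inv_cancel (q : G) (X : V) : rho q⁻¹ (rho q X) = X := by
  have : (rho q⁻¹ * rho q) X = X := by rw [← map_mul, inv_mul_cancel, map_one]; rfl
  exact this

lemma rho_mul_apply (g h : G) (X : V) : rho (g * h) X = rho g (rho h X) := by
  rw [map_mul]; rfl

/-- An element which fixes the plane of the frame `q` is real in the coordinates of `q`. -/
lemma real_of_fix {γ q : G} (h : rho γ (Yv q) = Yv q) : IsReal (q⁻¹ * γ * q) := by
  apply real_of_Yv
  rw [rho_Yv] at h
  rw [mul_assoc, ← rho_Yv, h, rho_Yv, inv_mul_cancel]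

/-- An element which fixes two tangent planes has trace `2` or `-2`. -/
lemma par_trace {γ q : G} {Y Y' : V} (hY : Y = Yv q ∨ Y = -Yv q) (hY' : D Y' Y' = -1)
    (hne : Y ≠ Y') (hD : D Y Y' = -1) (h : rho γ Y = Y) (h' : rho γ Y' = Y') :
    (γ 0 0 + γ 1 1) ^ 2 = 4 := by
  have hq : rho γ (Yv q) = Yv q := by
    rcases hY with rfl | rfl
    · exact h
    · rw [map_neg] at h
      exact neg_injective h
  have hYY : D Y Y = -1 := by
    rcases hY with rfl | rfl
    · exact D_Yv_self q
    · rw [D_neg_left, D_neg_right, neg_neg, D_Yv_self]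
  rw [← conj_trace q γ]
  refine fix_trace (real_of_fix hq) (N := rho q⁻¹ (Y - Y')) ?_ ?_ ?_ ?_
  · intro h0
    apply hne
    have := congrArg (rho q) h0
    rw [map_zero] at this
    have e := rho_inv_cancel q⁻¹ (Y - Y')
    rw [inv_inv] at e
    rw [e] at this
    exact sub_eq_zero.1 this
  · rw [rho_form, D_sub_left, D_sub_right, D_sub_right, hYY, hY', D_symm Y' Y, hD]
    norm_num
  · have e1 : Yv 1 = rho q⁻¹ (Yv q) := by rw [rho_Yv, inv_mul_cancel]
    have e2 := D_Yv_one (rho q⁻¹ (Y - Y'))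
    rw [e1, rho_form] at e2
    have e3 : D (Yv q) (Y - Y') = 0 := by
      have e4 : D Y (Y - Y') = 0 := by
        rw [D_sub_right, hYY, hD]; norm_num
      rcases hY with rfl | rfl
      · exact e4
      · rw [D_neg_left] at e4
        linarith
    rw [e3] at e2
    linarith
  · have e : rho (q⁻¹ * γ * q) (rho q⁻¹ (Y - Y')) = rho q⁻¹ (rho γ (Y - Y')) := by
      rw [← rho_mul_apply, ← rho_mul_apply]
      congr 2
      group
    rw [e, map_sub, h, h']

end Pool.Agent.H90.WC
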