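import Pool.Agent.H70.WC.Herm

/-!
The plane of a frame (problem MP_90715c_gt).
-/

open Matrix Set Filter Topology

namespace Pool.Agent.H90.WC

/-- The hermitian matrix of the plane over the real circle. -/
noncomputable def Y0 : M2 := !![0, -Complex.I; Complex.I, 0]

lemma Y0_herm : Y0ᴴ = Y0 := by
  rw [herm_iff]
  simp [Y0]

/-- The normal vector of the plane of a frame. -/
noncomputable def Yv (q : G) : V := ofM (q.1 * (Y0 * q.1ᴴ))

lemma rho_Yv (g q : G) : rho g (Yv q) = Yv (g * q) := by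
  unfold Yv
  rw [rho_ofM g (herm_conj q Y0_herm), val_mul, conjTranspose_mul]
  simp only [Matrix.mul_assoc]

lemma conj_Y0 (g : G) :
    g.1 * (Y0 * g.1ᴴ) = !![Complex.I * (g 0 1 * star (g 0 0) - g 0 0 * star (g 0 1)),
      Complex.I * (g 0 1 * star (g 1 0) - g 0 0 * star (g 1 1));
      Complex.I * (g 1 1 * star (g 0 0) - g 1 0 * star (g 0 1)),
      Complex.I * (g 1 1 * star (g 1 0) - g 1 0 * star (g 1 1))] := by
  apply M_ext <;> simp only [Matrix.mul_apply, Fin.sum_univ_two, conjTranspose_apply] <;>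
    simp [Y0] <;> ring

lemma Yv_1 (g : G) : (Yv g).1 = -((star (g 0 0) * g 0 1 + star (g 1 0) * g 1 1).im) := by
  unfold Yv
  rw [ofM_1, conj_Y0]
  simp
  ring

lemma Yv_21 (g : G) : (Yv g).2 1 = Bf g := by
  unfold Yv
  rw [ofM_21, conj_Y0, Bf_eq]
  simp
  ring

lemma Yv_one : Yv 1 = ofM Y0 := by
  unfold Yv
  rw [val_one, conjTranspose_one, Matrix.mul_one, Matrix.one_mul]

lemma D_Yv_one (v : V) : D (Yv 1) v = -v.2 1 := by
  rw [Yv_one, D_eq, ofM_1, ofM_20, ofM_21, ofM_22]
  simp [Y0]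

lemma D_Yv (q q' : G) : D (Yv q) (Yv q') = -Bf (q⁻¹ * q') := by
  have h1 : Yv q = rho q (Yv 1) := by rw [rho_Yv, mul_one]
  have h2 : Yv q' = rho q (Yv (q⁻¹ * q')) := by rw [rho_Yv, mul_inv_cancel_left]
  rw [h1, h2, rho_form, D_Yv_one, Yv_21]

lemma D_Yv_self (q : G) : D (Yv q) (Yv q) = -1 := by
  rw [D_Yv, inv_mul_cancel, Bf_one]

lemma Yv_real {b : G} (hb : IsReal b) : Yv b = Yv 1 := by
  have hd := hb.det
  rw [isReal_iff] at hb
  obtain ⟨h0, h1, h2, h3⟩ := hb
  rw [Yv_one]
  unfold Yv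
  congr 1
  rw [conj_Y0]
  apply M_ext <;> apply Complex.ext <;> simp [Y0, h0, h1, h2, h3] <;> linarith

lemma Yv_mul_real (q : G) {b : G} (hb : IsReal b) : Yv (q * b) = Yv q := by
  rw [← rho_Yv, Yv_real hb, rho_Yv, mul_one]

/-- A frame of the standard plane is real. -/
lemma real_of_Yv {t : G} (h : Yv t = Yv 1) : IsReal t := by
  have e : t.1 * (Y0 * t.1ᴴ) = Y0 := by
    have := congrArg toM h
    unfold Yv at this
    rw [toM_ofM (herm_conj t Y0_herm), toM_ofM (herm_conj 1 Y0_herm), val_one, conjTranspose_one,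
      Matrix.mul_one, Matrix.one_mul] at this
    exact this
  rw [conj_Y0] at e
  have e00 := congrFun (congrFun e 0) 0
  have e01 := congrFun (congrFun e 0) 1
  have e10 := congrFun (congrFun e 1) 0
  have e11 := congrFun (congrFun e 1) 1
  simp only [Y0, of_apply, cons_val', cons_val_zero, cons_val_fin_one, cons_val_one,
    mul_eq_zero, Complex.I_ne_zero, false_or] at e00 e11 e01 e10
  have f01 : t 0 0 * star (t 1 1) - t 0 1 * star (t 1 0) = 1 := by
    have : Complex.I * (t 0 0 * star (t 1 1) - t 0 1 * star (t 1 0) - 1) = 0 := by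
      linear_combination (-1 : ℂ) * e01
    rcases mul_eq_zero.1 this with h | h
    · exact absurd h Complex.I_ne_zero
    · linear_combination h
  have f10 : t 1 1 * star (t 0 0) - t 1 0 * star (t 0 1) = 1 := by
    have : Complex.I * (t 1 1 * star (t 0 0) - t 1 0 * star (t 0 1) - 1) = 0 := by
      linear_combination e10
    rcases mul_eq_zero.1 this with h | h
    · exact absurd h Complex.I_ne_zero
    · linear_combination h
  have hd := det_eq t
  have r00 : star (t 0 0) = t 0 0 := by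
    linear_combination (-star (t 0 0)) * hd + t 0 0 * f10 - t 1 0 * e00
  have r01 : star (t 0 1) = t 0 1 := by
    linear_combination (-star (t 0 1)) * hd + t 0 1 * f10 - t 1 1 * e00
  have r10 : star (t 1 0) = t 1 0 := by
    linear_combination (-star (t 1 0)) * hd + t 1 0 * f01 + t 0 0 * e11
  have r11 : star (t 1 1) = t 1 1 := by
    linear_combination (-star (t 1 1)) * hd + t 1 1 * f01 + t 0 1 * e11
  rw [isReal_iff]
  exact ⟨Complex.conj_eq_iff_im.1 r00, Complex.conj_eq_iff_im.1 r01, Complex.conj_eq_iff_im.1 r10,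
    Complex.conj_eq_iff_im.1 r11⟩

end Pool.Agent.H90.WC
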